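import Pool.Agent.Helper49.LT.StC

/-!
# Project LT (MP_b21509_co), module QUA: value of the base functional
-/

open MeasureTheory Set Filter Metric

namespace Pool.Agent.Helper44.LT

open Helper49.LT Helper97.CB

private theorem qua_sin (k : ℝ) (hk : k ≠ 0) (t : ℝ) :
    HasDerivAt (fun s : ℝ => Real.sin (k * s) / k) (Real.cos (k * t)) t := by
  have h1 : HasDerivAt (fun s : ℝ => k * s) k t := by
    simpa using (hasDerivAt_id t).const_mul k
  have h2 := h1.sin.div_const k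
  refine h2.congr_deriv ?_
  field_simp

private theorem qua_sin_two_pi (n : ℕ) : Real.sin ((n : ℝ) * (2 * Real.pi)) = 0 := by
  have := Real.sin_nat_mul_pi (2 * n)
  rw [← this]
  congr 1
  push_cast
  ring

/-- the integral of a polynomial in `cos 3t` -/
private theorem qua_poly (p0 p1 p2 p3 p4 : ℝ) :
    ∫ t in (0 : ℝ)..(2 * Real.pi), (p0 + p1 * Real.cos (3 * t) + p2 * Real.cos (3 * t) ^ 2
      + p3 * Real.cos (3 * t) ^ 3 + p4 * Real.cos (3 * t) ^ 4) =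
      2 * Real.pi * p0 + Real.pi * p2 + 3 / 4 * Real.pi * p4 := by
  have hd : ∀ t : ℝ, HasDerivAt (fun s : ℝ => (p0 + p2 / 2 + 3 / 8 * p4) * s
      + (p1 + 3 / 4 * p3) * (Real.sin (3 * s) / 3) + (p2 / 2 + p4 / 2) * (Real.sin (6 * s) / 6)
      + p3 / 4 * (Real.sin (9 * s) / 9) + p4 / 8 * (Real.sin (12 * s) / 12))
      (p0 + p1 * Real.cos (3 * t) + p2 * Real.cos (3 * t) ^ 2
      + p3 * Real.cos (3 * t) ^ 3 + p4 * Real.cos (3 * t) ^ 4) t := by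
    intro t
    have d0 : HasDerivAt (fun s : ℝ => (p0 + p2 / 2 + 3 / 8 * p4) * s) (p0 + p2 / 2 + 3 / 8 * p4) t := by
      simpa using (hasDerivAt_id t).const_mul (p0 + p2 / 2 + 3 / 8 * p4)
    have d1 := (qua_sin 3 (by norm_num) t).const_mul (p1 + 3 / 4 * p3)
    have d2 := (qua_sin 6 (by norm_num) t).const_mul (p2 / 2 + p4 / 2)
    have d3 := (qua_sin 9 (by norm_num) t).const_mul (p3 / 4)
    have d4 := (qua_sin 12 (by norm_num) t).const_mul (p4 / 8)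
    have d := (((d0.add d1).add d2).add d3).add d4
    refine d.congr_deriv ?_
    have c6 : Real.cos (6 * t) = 2 * Real.cos (3 * t) ^ 2 - 1 := by
      rw [← Real.cos_two_mul]
      congr 1
      ring
    have c9 : Real.cos (9 * t) = 4 * Real.cos (3 * t) ^ 3 - 3 * Real.cos (3 * t) := by
      rw [← Real.cos_three_mul]
      congr 1
      ring
    have c12 : Real.cos (12 * t) = 2 * (2 * Real.cos (3 * t) ^ 2 - 1) ^ 2 - 1 := by
      rw [← c6, ← Real.cos_two_mul]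
      congr 1
      ring
    rw [c6, c9, c12]
    ring
  rw [intervalIntegral.integral_eq_sub_of_hasDerivAt (fun t _ => hd t)
    (Continuous.intervalIntegrable (by fun_prop) _ _)]
  have s3 : Real.sin (3 * (2 * Real.pi)) = 0 := by simpa using qua_sin_two_pi 3
  have s6 : Real.sin (6 * (2 * Real.pi)) = 0 := by simpa using qua_sin_two_pi 6
  have s9 : Real.sin (9 * (2 * Real.pi)) = 0 := by simpa using qua_sin_two_pi 9
  have s12 : Real.sin (12 * (2 * Real.pi)) = 0 := by simpa using qua_sin_two_pi 12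
  simp only [s3, s6, s9, s12, mul_zero, Real.sin_zero, zero_div, add_zero, sub_zero]
  ring

/-- the remainder -/
private noncomputable def qR (a c : ℝ) : ℝ :=
  24 * c - 80 * c ^ 3 + 56 * c ^ 5 - 8 * a + 72 * a * c ^ 2 - 120 * a * c ^ 4 + 56 * a * c ^ 6
    - 16 * a ^ 2 * c + 112 * a ^ 2 * c ^ 3 - 176 * a ^ 2 * c ^ 5 + 80 * a ^ 2 * c ^ 7
    + 4 * a ^ 3 - 48 * a ^ 3 * c ^ 2 + 184 * a ^ 3 * c ^ 4 - 240 * a ^ 3 * c ^ 6 + 100 * a ^ 3 * c ^ 8

/-- the Taylor polynomial of `√(1 - 4ac + 4a²)` -/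
private noncomputable def qQq (a c : ℝ) : ℝ :=
  1 - 2 * a * c + 2 * a ^ 2 - 2 * a ^ 2 * c ^ 2 + 4 * a ^ 3 * c - 2 * a ^ 4 - 4 * a ^ 3 * c ^ 3
    + 12 * a ^ 4 * c ^ 2 - 10 * a ^ 4 * c ^ 4

private theorem qQq_sq (a c : ℝ) : qQq a c ^ 2 = 1 - 4 * a * c + 4 * a ^ 2 + a ^ 5 * qR a c := by
  unfold qQq qR
  ring

private theorem qQq_half {a c : ℝ} (ha : 0 ≤ a) (ha' : a ≤ 1 / 10) (hc : -1 ≤ c) (hc' : c ≤ 1) :
    1 / 2 ≤ qQq a c := by
  have hc2 : c ^ 2 ≤ 1 := by nlinarith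
  have hc20 : 0 ≤ c ^ 2 := sq_nonneg c
  have hc4 : c ^ 4 ≤ 1 := by nlinarith
  have hc3 : c ^ 3 ≤ 1 := by nlinarith
  have a1 : a * c ≤ 1 / 10 := by nlinarith
  have a2 : a ^ 2 ≤ 1 / 100 := by nlinarith
  have a20 : 0 ≤ a ^ 2 := sq_nonneg a
  have a3 : a ^ 3 ≤ 1 / 1000 := by nlinarith
  have a30 : 0 ≤ a ^ 3 := by positivity
  have a4 : a ^ 4 ≤ 1 / 10000 := by nlinarith
  have a40 : 0 ≤ a ^ 4 := by positivity
  have b2 : a ^ 2 * c ^ 2 ≤ 1 / 100 := by nlinarith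
  have b3 : -(1 / 1000) ≤ a ^ 3 * c := by nlinarith
  have b33 : a ^ 3 * c ^ 3 ≤ 1 / 1000 := by nlinarith
  have b4 : 0 ≤ a ^ 4 * c ^ 2 := by positivity
  have b44 : a ^ 4 * c ^ 4 ≤ 1 / 10000 := by nlinarith
  unfold qQq
  nlinarith

/-- a lower bound of the speed -/
private theorem qua_sg : ∃ K : ℝ, 1 ≤ K ∧ ∀ a c z : ℝ, 0 ≤ a → a ≤ 1 / 10 → K * a ≤ 1 → -1 ≤ c → c ≤ 1 →
    0 ≤ z → z ^ 2 = 1 - 4 * a * c + 4 * a ^ 2 → qQq a c - K * a ^ 5 ≤ z := by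
  have hcpt : IsCompact (Icc (0 : ℝ) 1 ×ˢ Icc (-1 : ℝ) 1) := isCompact_Icc.prod isCompact_Icc
  have hcont : Continuous fun p : ℝ × ℝ => qR p.1 p.2 := by
    unfold qR
    fun_prop
  obtain ⟨C, hC⟩ := hcpt.exists_bound_of_continuousOn hcont.continuousOn
  refine ⟨|C| + 1, by linarith [abs_nonneg C], ?_⟩
  intro a c z ha ha' hKa hc hc' hz hz2
  have hK1 : 1 ≤ |C| + 1 := by linarith [abs_nonneg C]
  obtain ⟨K, hK⟩ : ∃ K, K = |C| + 1 := ⟨_, rfl⟩
  rw [← hK] at hKa hK1 ⊢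
  have hR : qR a c ≤ K - 1 := by
    have h := hC (a, c) ⟨⟨ha, by linarith⟩, ⟨hc, hc'⟩⟩
    rw [Real.norm_eq_abs] at h
    have := le_abs_self (qR a c)
    have h3 := le_abs_self C
    simp only at h
    linarith
  have hQ := qQq_half ha ha' hc hc'
  have hKa5 : K ^ 2 * a ^ 5 ≤ 1 := by
    have e : K ^ 2 * a ^ 5 = (K * a) ^ 2 * a ^ 3 := by ring
    have e1 : (K * a) ^ 2 ≤ 1 := by
      have : 0 ≤ K * a := by positivity
      nlinarith
    have e2 : a ^ 3 ≤ 1 := by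
      have : a ^ 2 ≤ 1 := by nlinarith
      nlinarith [sq_nonneg a]
    have e3 : 0 ≤ a ^ 3 := by positivity
    rw [e]
    nlinarith [sq_nonneg (K * a)]
  have ha5 : 0 ≤ a ^ 5 := by positivity
  by_contra hlt
  push Not at hlt
  have h1 : z ^ 2 < (qQq a c - K * a ^ 5) ^ 2 := by nlinarith
  have h2 : (qQq a c - K * a ^ 5) ^ 2 =
      1 - 4 * a * c + 4 * a ^ 2 + a ^ 5 * (qR a c - 2 * K * qQq a c + K ^ 2 * a ^ 5) := by
    have := qQq_sq a c
    have e : (qQq a c - K * a ^ 5) ^ 2 = qQq a c ^ 2 + a ^ 5 * (- 2 * K * qQq a c + K ^ 2 * a ^ 5) := by ring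
    rw [e, this]
    ring
  have h3 : qR a c - 2 * K * qQq a c + K ^ 2 * a ^ 5 ≤ 0 := by nlinarith
  have h4 : a ^ 5 * (qR a c - 2 * K * qQq a c + K ^ 2 * a ^ 5) ≤ 0 :=
    mul_nonpos_of_nonneg_of_nonpos ha5 h3
  rw [h2, hz2] at h1
  linarith

private theorem qua_meas : Measurable fun p : ℝ × ℝ => gam p.1 p.2 := by
  unfold gam rR eN eRd eId eR eI pqd pq
  fun_prop

private theorem qua_rot (sp : (ℂ × ℂ) × (ℝ × ℝ) → ℝ) (y : ℂ) : tB sp (y, 0) = tB sp ((‖y‖ : ℂ), 0) := by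
  obtain ⟨θ, hθ⟩ : ∃ θ : ℝ, rot θ (((‖y‖ : ℝ) : ℂ), (0 : ℂ)) = (y, 0) := by
    refine ⟨-(Complex.arg y) / 3, ?_⟩
    have h1 : ee (-3 * (-(Complex.arg y) / 3)) * ((‖y‖ : ℝ) : ℂ) = y := by
      have : -3 * (-(Complex.arg y) / 3) = Complex.arg y := by ring
      rw [this, mul_comm]
      exact Complex.norm_mul_exp_arg_mul_I y
    unfold rot
    rw [h1, mul_zero]
  unfold tB
  have h2 : ∀ u : ℝ, rot u (y, 0) = rot (u + θ) (((‖y‖ : ℝ) : ℂ), (0 : ℂ)) := by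
    intro u
    rw [rot_add, hθ]
  simp only [h2]
  exact integral_shift (fun t => cc sp (rot t (((‖y‖ : ℝ) : ℂ), (0 : ℂ)), 0)
    + sg (rot t (((‖y‖ : ℝ) : ℂ), (0 : ℂ))) - 3 / 2 * h0 (rot t (((‖y‖ : ℝ) : ℂ), (0 : ℂ))))
    (fun t => by simp only [rot_per]) θ

private theorem qua_fst (a u : ℝ) : (rot u ((a : ℂ), (0 : ℂ))).1.re = a * Real.cos (3 * u) ∧
    (rot u ((a : ℂ), (0 : ℂ))).1.im = -(a * Real.sin (3 * u)) := by
  have h : (rot u ((a : ℂ), (0 : ℂ))).1 = ee (-3 * u) * (a : ℂ) := rfl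
  have e : -3 * u = -(3 * u) := by ring
  rw [h]
  constructor
  · rw [Complex.mul_re, ee_re, ee_im, Complex.ofReal_re, Complex.ofReal_im, e, Real.cos_neg]
    ring
  · rw [Complex.mul_im, ee_re, ee_im, Complex.ofReal_re, Complex.ofReal_im, e, Real.sin_neg]
    ring

private theorem qua_snd (a u : ℝ) : (rot u ((a : ℂ), (0 : ℂ))).2 = 0 := by
  show ee (-5 * u) * 0 = 0
  rw [mul_zero]

private theorem qua_h0 (a u : ℝ) : h0 (rot u ((a : ℂ), (0 : ℂ))) =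
    (1 - 2 * a ^ 2) + (-a) * Real.cos (3 * u) + 0 * Real.cos (3 * u) ^ 2 + 0 * Real.cos (3 * u) ^ 3
      + 0 * Real.cos (3 * u) ^ 4 := by
  have hk : k3 (rot u ((a : ℂ), (0 : ℂ))) = a * Real.cos (3 * u) := (qua_fst a u).1
  have hs : s3 (rot u ((a : ℂ), (0 : ℂ))) = a * Real.sin (3 * u) := by
    show -(rot u ((a : ℂ), (0 : ℂ))).1.im = _
    rw [(qua_fst a u).2, neg_neg]
  have hk5 : k5 (rot u ((a : ℂ), (0 : ℂ))) = 0 := by
    show (rot u ((a : ℂ), (0 : ℂ))).2.re = 0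
    rw [qua_snd, Complex.zero_re]
  have hs5 : s5 (rot u ((a : ℂ), (0 : ℂ))) = 0 := by
    show -(rot u ((a : ℂ), (0 : ℂ))).2.im = 0
    rw [qua_snd, Complex.zero_im, neg_zero]
  unfold h0
  rw [hk, hs, hk5, hs5]
  linear_combination (-2 * a ^ 2) * Real.sin_sq_add_cos_sq (3 * u)

private theorem qua_sgsq (a u : ℝ) : sg (rot u ((a : ℂ), (0 : ℂ))) ^ 2 =
    1 - 4 * a * Real.cos (3 * u) + 4 * a ^ 2 := by
  unfold sg
  rw [qua_snd, mul_zero, sub_zero, Complex.sq_norm, Complex.normSq_apply]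
  simp only [Complex.sub_re, Complex.sub_im, Complex.one_re, Complex.one_im, Complex.mul_re, Complex.mul_im,
    Complex.re_ofNat, Complex.im_ofNat, (qua_fst a u).1, (qua_fst a u).2]
  linear_combination (4 * a ^ 2) * Real.sin_sq_add_cos_sq (3 * u)

/-- the integral of `sg` -/
private theorem qua_i2 {K : ℝ} (hK : ∀ a c z : ℝ, 0 ≤ a → a ≤ 1 / 10 → K * a ≤ 1 → -1 ≤ c → c ≤ 1 →
    0 ≤ z → z ^ 2 = 1 - 4 * a * c + 4 * a ^ 2 → qQq a c - K * a ^ 5 ≤ z) {a : ℝ} (ha0 : 0 ≤ a)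
    (k4 : a ≤ 1 / 10) (hKa : K * a ≤ 1) :
    2 * Real.pi + 2 * Real.pi * a ^ 2 + 1 / 2 * Real.pi * a ^ 4 - 2 * Real.pi * (K * a ^ 5) ≤
      ∫ u in (0 : ℝ)..(2 * Real.pi), sg (rot u ((a : ℂ), (0 : ℂ))) := by
  have hsg : Continuous fun u : ℝ => sg (rot u ((a : ℂ), (0 : ℂ))) :=
    continuous_sg.comp (continuous_rot _)
  have e : ∀ u : ℝ, qQq a (Real.cos (3 * u)) - K * a ^ 5 =
      (1 + 2 * a ^ 2 - 2 * a ^ 4 - K * a ^ 5) + (-2 * a + 4 * a ^ 3) * Real.cos (3 * u)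
        + (-2 * a ^ 2 + 12 * a ^ 4) * Real.cos (3 * u) ^ 2 + (-4 * a ^ 3) * Real.cos (3 * u) ^ 3
        + (-10 * a ^ 4) * Real.cos (3 * u) ^ 4 := by
    intro u
    unfold qQq
    ring
  have h1 : ∫ u in (0 : ℝ)..(2 * Real.pi), (qQq a (Real.cos (3 * u)) - K * a ^ 5) ≤
      ∫ u in (0 : ℝ)..(2 * Real.pi), sg (rot u ((a : ℂ), (0 : ℂ))) := by
    refine intervalIntegral.integral_mono_on (mul_nonneg zero_le_two Real.pi_pos.le) ?_
      (hsg.intervalIntegrable _ _) ?_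
    · simp only [e]
      exact Continuous.intervalIntegrable (by fun_prop) _ _
    · intro u _
      exact hK a _ _ ha0 k4 hKa (Real.neg_one_le_cos _) (Real.cos_le_one _) (norm_nonneg _) (qua_sgsq a u)
  simp only [e] at h1
  rw [qua_poly] at h1
  linarith

private theorem qua_it (a : ℝ) :
    ∫ α in (0 : ℝ)..(2 * Real.pi), tgam (a * Real.cos (3 * α)) (a * Real.sin (3 * α)) =
      Real.pi - 8 * Real.pi * a ^ 2 + 58 * Real.pi * a ^ 4 := by
  have e : ∀ α : ℝ, tgam (a * Real.cos (3 * α)) (a * Real.sin (3 * α)) =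
      (1 / 2 + 4 * a ^ 2 + 2 * a ^ 4) + (-a / 2 + 61 / 4 * a ^ 3) * Real.cos (3 * α)
        + (-16 * a ^ 2 - 228 * a ^ 4) * Real.cos (3 * α) ^ 2 + (-19 / 4 * a ^ 3) * Real.cos (3 * α) ^ 3
        + (376 * a ^ 4) * Real.cos (3 * α) ^ 4 := by
    intro α
    have hs : Real.sin (3 * α) ^ 2 = 1 - Real.cos (3 * α) ^ 2 := Real.sin_sq _
    have hs4 : Real.sin (3 * α) ^ 4 = (1 - Real.cos (3 * α) ^ 2) ^ 2 := by rw [← hs]; ring
    unfold tgam
    simp only [mul_pow]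
    rw [hs, hs4]
    ring
  simp only [e]
  rw [qua_poly]
  ring

private theorem qua_cmp {G T : ℝ → ℝ} {c I : ℝ} (hc0 : 0 ≤ c) (hG : Measurable G) (hT : Continuous T)
    (hb : ∀ α, |G α - T α| ≤ c) (hI : ∫ α in (0 : ℝ)..(2 * Real.pi), T α = I) :
    I - c * (2 * Real.pi) ≤ ∫ α in (0 : ℝ)..(2 * Real.pi), G α := by
  have hdi : IntervalIntegrable (fun α : ℝ => G α - T α) volume 0 (2 * Real.pi) := by
    have hcst : IntervalIntegrable (fun _ : ℝ => c) volume 0 (2 * Real.pi) :=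
      intervalIntegrable_const
    refine hcst.mono_fun (hG.sub hT.measurable).aestronglyMeasurable ?_
    filter_upwards with α
    rw [Real.norm_eq_abs, Real.norm_eq_abs, abs_of_nonneg hc0]
    exact hb α
  have hgi : ∫ α in (0 : ℝ)..(2 * Real.pi), G α =
      (∫ α in (0 : ℝ)..(2 * Real.pi), (G α - T α)) + ∫ α in (0 : ℝ)..(2 * Real.pi), T α := by
    rw [← intervalIntegral.integral_add hdi (hT.intervalIntegrable _ _)]
    congr 1
    ext α
    ring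
  have hnb := intervalIntegral.norm_integral_le_of_norm_le_const (a := (0 : ℝ)) (b := 2 * Real.pi)
    (f := fun α : ℝ => G α - T α) (C := c) (fun α _ => hb α)
  rw [Real.norm_eq_abs, sub_zero, abs_of_pos Real.two_pi_pos] at hnb
  have hnb' := (abs_le.1 hnb).1
  rw [hgi, hI]
  linarith

private theorem qua_meas1 (a : ℝ) :
    Measurable fun α : ℝ => gam (a * Real.cos (3 * α)) (a * Real.sin (3 * α)) := by
  have h1 : Measurable fun α : ℝ => (a * Real.cos (3 * α), a * Real.sin (3 * α)) := by fun_prop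
  have h2 := qua_meas.comp h1
  exact h2

private theorem qua_cont (a : ℝ) :
    Continuous fun α : ℝ => tgam (a * Real.cos (3 * α)) (a * Real.sin (3 * α)) := by
  unfold tgam
  fun_prop

/-- the integral of `gam` -/
private theorem qua_gam {C2 : ℝ} (hC2 : 0 ≤ C2) {a : ℝ} (ha0 : 0 ≤ a)
    (q2 : ∀ k s : ℝ, |k| ≤ a → |s| ≤ a → |gam k s - tgam k s| ≤ C2 * a ^ 5) :
    Real.pi - 8 * Real.pi * a ^ 2 + 58 * Real.pi * a ^ 4 - C2 * a ^ 5 * (2 * Real.pi) ≤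
      ∫ α in (0 : ℝ)..(2 * Real.pi), gam (a * Real.cos (3 * α)) (a * Real.sin (3 * α)) := by
  refine qua_cmp (mul_nonneg hC2 (pow_nonneg ha0 5)) (qua_meas1 a) (qua_cont a) ?_ (qua_it a)
  intro α
  refine q2 _ _ ?_ ?_
  · rw [abs_mul, abs_of_nonneg ha0]
    exact mul_le_of_le_one_right ha0 (Real.abs_cos_le_one _)
  · rw [abs_mul, abs_of_nonneg ha0]
    exact mul_le_of_le_one_right ha0 (Real.abs_sin_le_one _)

private theorem qua_split {r : ℝ} {sp sm : (ℂ × ℂ) × (ℝ × ℝ) → ℝ} (hc : Chd r sp sm) {a : ℝ} (ha0 : 0 ≤ a)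
    (har : a < r) :
    tB sp ((a : ℂ), 0) = (∫ u in (0 : ℝ)..(2 * Real.pi), cc sp (rot u ((a : ℂ), (0 : ℂ)), 0))
      + (∫ u in (0 : ℝ)..(2 * Real.pi), sg (rot u ((a : ℂ), (0 : ℂ))))
      - 3 / 2 * ∫ u in (0 : ℝ)..(2 * Real.pi), h0 (rot u ((a : ℂ), (0 : ℂ))) := by
  have hx : ‖(((a : ℝ) : ℂ), (0 : ℂ))‖ < r := by
    rw [Prod.norm_def, Complex.norm_real, norm_zero, Real.norm_eq_abs, abs_of_nonneg ha0, max_eq_left ha0]
    exact har
  have hcr : Continuous fun u : ℝ => ((rot u ((a : ℂ), (0 : ℂ)), (0 : ℝ × ℝ)) : (ℂ × ℂ) × (ℝ × ℝ)) :=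
    (continuous_rot _).prodMk continuous_const
  have hmem : ∀ u : ℝ, ((rot u ((a : ℂ), (0 : ℂ)), (0 : ℝ × ℝ)) : (ℂ × ℂ) × (ℝ × ℝ)) ∈
      ball (0 : (ℂ × ℂ) × (ℝ × ℝ)) r := by
    intro u
    rw [mem_ball_zero_iff, Prod.norm_def, norm_rot, norm_zero, max_eq_left (norm_nonneg _)]
    exact hx
  have hsp : Continuous fun u : ℝ => sp (rot u ((a : ℂ), (0 : ℂ)), 0) :=
    hc.cp.continuousOn.comp_continuous hcr hmem
  have hccc : Continuous fun u : ℝ => cc sp (rot u ((a : ℂ), (0 : ℂ)), 0) := by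
    have h1 : Continuous fun u : ℝ => zh (rot u ((a : ℂ), (0 : ℂ))) (sp (rot u ((a : ℂ), (0 : ℂ)), 0)) :=
      contDiff_zh.continuous.comp ((continuous_rot _).prodMk hsp)
    unfold cc
    simp only [Prod.fst_zero, add_zero, Complex.ofReal_one, one_mul]
    exact Complex.continuous_re.comp h1
  have hsg : Continuous fun u : ℝ => sg (rot u ((a : ℂ), (0 : ℂ))) :=
    continuous_sg.comp (continuous_rot _)
  have hh0 : Continuous fun u : ℝ => h0 (rot u ((a : ℂ), (0 : ℂ))) :=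
    continuous_h0.comp (continuous_rot _)
  unfold tB
  have i1 : IntervalIntegrable (fun u : ℝ => cc sp (rot u ((a : ℂ), (0 : ℂ)), 0)
      + sg (rot u ((a : ℂ), (0 : ℂ)))) volume 0 (2 * Real.pi) := (hccc.add hsg).intervalIntegrable _ _
  have i2 : IntervalIntegrable (fun u : ℝ => 3 / 2 * h0 (rot u ((a : ℂ), (0 : ℂ)))) volume 0 (2 * Real.pi) :=
    (continuous_const.mul hh0).intervalIntegrable _ _
  rw [intervalIntegral.integral_sub i1 i2,
    intervalIntegral.integral_add (hccc.intervalIntegrable _ _) (hsg.intervalIntegrable _ _),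
    intervalIntegral.integral_const_mul]

/-- MODULE QUA -/
theorem hQUA (h₁ : StQu1) (h₂ : StQu2) : StQua := by
  intro r sp sm hc
  obtain ⟨C1, r1, hC1, hr1, q1⟩ := h₁ r sp sm hc
  obtain ⟨C2, r2, hC2, hr2, q2⟩ := h₂
  obtain ⟨K, hK1, hK⟩ := qua_sg
  have hK0 : 0 < K := by linarith
  have hr := hc.pos
  have hpi := Real.pi_pos
  have hCpos : 0 < C1 + 2 * Real.pi * C2 + 2 * Real.pi * K := by positivity
  have hrpos : 0 < min (r / 2) (min r1 (min r2 (min (1 / 10) (1 / K)))) :=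
    lt_min (half_pos hr) (lt_min hr1 (lt_min hr2 (lt_min (by norm_num) (one_div_pos.2 hK0))))
  refine ⟨C1 + 2 * Real.pi * C2 + 2 * Real.pi * K, min (r / 2) (min r1 (min r2 (min (1 / 10) (1 / K)))),
    hCpos, hrpos, ?_⟩
  intro y hy
  rw [qua_rot]
  obtain ⟨a, ha⟩ : ∃ a, a = ‖y‖ := ⟨_, rfl⟩
  rw [← ha] at hy ⊢
  have ha0 : 0 ≤ a := by rw [ha]; exact norm_nonneg y
  have k1 : a ≤ r / 2 := hy.trans (min_le_left _ _)
  have hy2 := hy.trans (min_le_right _ _)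
  have k2 : a ≤ r1 := hy2.trans (min_le_left _ _)
  have hy3 := hy2.trans (min_le_right _ _)
  have k3' : a ≤ r2 := hy3.trans (min_le_left _ _)
  have hy4 := hy3.trans (min_le_right _ _)
  have k4 : a ≤ 1 / 10 := hy4.trans (min_le_left _ _)
  have k5' : a ≤ 1 / K := hy4.trans (min_le_right _ _)
  have hKa : K * a ≤ 1 := by
    rw [le_div_iff₀ hK0] at k5'
    linarith
  have i3 : ∫ u in (0 : ℝ)..(2 * Real.pi), h0 (rot u ((a : ℂ), (0 : ℂ))) =
      2 * Real.pi * (1 - 2 * a ^ 2) := by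
    simp only [qua_h0]
    rw [qua_poly]
    ring
  have i2 := qua_i2 hK ha0 k4 hKa
  have i1 := qua_gam hC2.le ha0 fun k s hk hs => q2 a k s k3' hk hs
  have hq := (abs_le.1 (q1 a ha0 k2)).1
  rw [qua_split hc ha0 (by linarith), i3]
  linarith

end Pool.Agent.Helper44.LT
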